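import Mathlib

set_option autoImplicit false

/-!
# Graph families whose pairwise intersections have at most two components: `n = 4` and `n = 5`

`n = 4`: all `22` graphs with at least four edges on four vertices: any two of them share at least
two edges, so the intersection has at most two components; but `22 > (5 / 16) * 2 ^ 6 = 20`.

`n = 5`: an explicit family with `196 > (6 / 32) * 2 ^ 10 = 192` members, found by computer.
-/

namespace Pool.Agent.Results.MP_5e9fbd_co.Disproof

open Finset

/-- The intersection of any two distinct members of the family has at most two connected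
components (isolated vertices are components). -/
def AtMostTwo {n : ℕ} (F : Set (SimpleGraph (Fin n))) : Prop :=
  ∀ G ∈ F, ∀ G' ∈ F, G ≠ G' → Nat.card (G ⊓ G').ConnectedComponent ≤ 2

/-- the six edges of `K₄` -/
def e : Fin 6 → Fin 4 × Fin 4 := ![(0, 1), (0, 2), (0, 3), (1, 2), (1, 3), (2, 3)]

/-- the graph with the edges `e m`, `m ∈ S` -/
def gr (S : Finset (Fin 6)) : SimpleGraph (Fin 4) where
  Adj i j := ∃ m ∈ S, e m = (i, j) ∨ e m = (j, i)
  symm := ⟨by
    rintro i j ⟨m, hm, h⟩
    exact ⟨m, hm, h.symm⟩⟩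
  loopless := ⟨by
    rintro i ⟨m, hm, h⟩
    have : ∀ m : Fin 6, ∀ i : Fin 4, ¬ (e m = (i, i) ∨ e m = (i, i)) := by decide
    exact this m i h⟩

lemma gr_inj : Function.Injective gr := by
  intro S T h
  have key : ∀ U : Finset (Fin 6), ∀ m : Fin 6, (gr U).Adj (e m).1 (e m).2 ↔ m ∈ U := by
    intro U m
    constructor
    · rintro ⟨m', hm', h'⟩
      have : ∀ m m' : Fin 6, (e m' = ((e m).1, (e m).2) ∨ e m' = ((e m).2, (e m).1)) → m = m' := by
        decide
      rw [this m m' h']
      exact hm'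
    · intro hm
      exact ⟨m, hm, Or.inl rfl⟩
  ext m
  rw [← key S m, ← key T m, h]

/-- the family of all graphs on four vertices with at least four edges -/
def fam : Finset (Finset (Fin 6)) := univ.filter (fun S => 4 ≤ S.card)

lemma card_fam : fam.card = 22 := by decide

/-- `v = w`, or `v` and `w` are joined by the edge `a` or by the edge `b` -/
def adj (a b : Fin 6) (v w : Fin 4) : Bool :=
  v == w || e a == (v, w) || e a == (w, v) || e b == (v, w) || e b == (w, v)

lemma two_comp (S T : Finset (Fin 6)) (hS : 4 ≤ S.card) (hT : 4 ≤ T.card) :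
    Nat.card (gr S ⊓ gr T).ConnectedComponent ≤ 2 := by
  have hI : 2 ≤ (S ∩ T).card := by
    have h1 : (S ∪ T).card + (S ∩ T).card = S.card + T.card := card_union_add_card_inter S T
    have h2 : (S ∪ T).card ≤ 6 := by
      have := card_le_univ (S ∪ T)
      rwa [Fintype.card_fin] at this
    omega
  obtain ⟨a, ha, b, hb, hab⟩ := one_lt_card.1 (show 1 < (S ∩ T).card by omega)
  have key : ∀ a b : Fin 6, a ≠ b → ∃ x0 x1 : Fin 4, ∀ v : Fin 4, ∃ w : Fin 4,
      adj a b v w = true ∧ (adj a b w x0 = true ∨ adj a b w x1 = true) := by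
    decide
  obtain ⟨x0, x1, hx⟩ := key a b hab
  rw [mem_inter] at ha hb
  have step : ∀ v w : Fin 4, adj a b v w = true → (gr S ⊓ gr T).Reachable v w := by
    intro v w h
    simp only [adj, Bool.or_eq_true, beq_iff_eq] at h
    rcases h with (((rfl | h) | h) | h) | h
    · exact SimpleGraph.Reachable.refl _
    · exact SimpleGraph.Adj.reachable ⟨⟨a, ha.1, Or.inl h⟩, ⟨a, ha.2, Or.inl h⟩⟩
    · exact SimpleGraph.Adj.reachable ⟨⟨a, ha.1, Or.inr h⟩, ⟨a, ha.2, Or.inr h⟩⟩
    · exact SimpleGraph.Adj.reachable ⟨⟨b, hb.1, Or.inl h⟩, ⟨b, hb.2, Or.inl h⟩⟩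
    · exact SimpleGraph.Adj.reachable ⟨⟨b, hb.1, Or.inr h⟩, ⟨b, hb.2, Or.inr h⟩⟩
  have hsurj : Function.Surjective
      (fun t : Bool => (gr S ⊓ gr T).connectedComponentMk (if t then x0 else x1)) := by
    intro c
    induction c using SimpleGraph.ConnectedComponent.ind with
    | h v =>
      obtain ⟨w, h1, h2⟩ := hx v
      rcases h2 with h2 | h2
      · exact ⟨true, (SimpleGraph.ConnectedComponent.eq.2
          ((step _ _ h1).trans (step _ _ h2))).symm⟩
      · exact ⟨false, (SimpleGraph.ConnectedComponent.eq.2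
          ((step _ _ h1).trans (step _ _ h2))).symm⟩
  have := Nat.card_le_card_of_surjective _ hsurj
  simpa using this

/-! ### `n = 5` -/

/-- the number of the edge between two different vertices of `K₅` -/
def idx (i j : Fin 5) : ℕ :=
  (([[0, 0, 1, 2, 3], [0, 0, 4, 5, 6], [1, 4, 0, 7, 8], [2, 5, 7, 0, 9], [3, 6, 8, 9, 0]] : List (List ℕ)).getD i.1 []).getD j.1 0

/-- the graph on five vertices with code `s`: the edges are the binary digits of `s` -/
def gr5 (s : ℕ) : SimpleGraph (Fin 5) where
  Adj i j := i ≠ j ∧ s.testBit (idx i j) = true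
  symm := ⟨by
    rintro i j ⟨h1, h2⟩
    have : ∀ i j : Fin 5, idx i j = idx j i := by decide
    exact ⟨h1.symm, by rw [this]; exact h2⟩⟩
  loopless := ⟨by
    rintro i ⟨h1, _⟩
    exact h1 rfl⟩

/-- the codes of the `196` members -/
def L5 : List ℕ :=
  [63, 127, 171, 175, 187, 191, 235, 239, 247, 251, 253, 254, 255, 319, 379, 383, 415, 427, 431, 
   435, 439, 441, 443, 445, 446, 447, 475, 479, 483, 487, 489, 491, 493, 494, 495, 499, 503, 505, 
   507, 509, 510, 511, 555, 559, 571, 575, 619, 623, 631, 633, 634, 635, 637, 638, 639, 651, 655, 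
   667, 671, 675, 679, 681, 682, 683, 685, 686, 687, 691, 693, 695, 697, 698, 699, 701, 702, 703, 
   715, 719, 727, 729, 730, 731, 733, 734, 735, 739, 743, 745, 746, 747, 749, 750, 751, 755, 757, 
   759, 761, 762, 763, 765, 766, 767, 783, 799, 811, 815, 819, 823, 825, 826, 827, 829, 830, 831, 
   847, 859, 863, 867, 871, 873, 875, 877, 878, 879, 883, 887, 889, 890, 891, 893, 894, 895, 907, 
   911, 919, 921, 922, 923, 925, 926, 927, 931, 935, 937, 938, 939, 940, 941, 942, 943, 947, 949, 
   950, 951, 953, 954, 955, 956, 957, 958, 959, 967, 971, 973, 974, 975, 983, 985, 986, 987, 989, 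
   990, 991, 995, 999, 1001, 1002, 1003, 1004, 1005, 1006, 1007, 1009, 1010, 1011, 1013, 1014, 
   1015, 1016, 1017, 1018, 1019, 1020, 1021, 1022, 1023]

/-- the spanning forests with two components, with one vertex in each of the components -/
def forests : List (ℕ × Fin 5 × Fin 5) :=
  [(7, 0, 4), (11, 0, 3), (35, 0, 4), (67, 0, 3), (131, 0, 4), (259, 0, 3), (515, 0, 3), 
   (13, 0, 2), (21, 0, 4), (69, 0, 2), (133, 0, 4), (261, 0, 2), (517, 0, 2), (25, 0, 3), 
   (41, 0, 2), (137, 0, 2), (265, 0, 3), (521, 0, 2), (49, 0, 4), (81, 0, 3), (145, 1, 4), 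
   (273, 1, 3), (529, 0, 3), (97, 0, 2), (161, 1, 4), (289, 0, 2), (545, 1, 2), (193, 0, 2), 
   (321, 1, 3), (577, 1, 2), (385, 0, 2), (641, 0, 2), (769, 0, 2), (14, 0, 1), (22, 0, 4), 
   (38, 0, 4), (70, 0, 1), (262, 0, 1), (518, 0, 1), (26, 0, 3), (42, 0, 1), (74, 0, 3), 
   (138, 0, 1), (522, 0, 1), (50, 1, 4), (82, 1, 3), (146, 0, 4), (274, 0, 3), (530, 0, 3), 
   (98, 0, 1), (162, 2, 4), (290, 0, 1), (546, 0, 1), (194, 0, 1), (322, 2, 3), (578, 0, 1), 
   (386, 0, 1), (642, 1, 2), (770, 1, 2), (28, 0, 1), (44, 0, 2), (76, 0, 2), (140, 0, 1), 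
   (268, 0, 1), (52, 1, 4), (84, 0, 1), (148, 2, 4), (276, 0, 1), (532, 0, 1), (100, 1, 2), 
   (164, 0, 4), (292, 0, 2), (548, 0, 2), (196, 0, 1), (324, 0, 1), (580, 2, 3), (388, 1, 2), 
   (644, 0, 1), (772, 1, 3), (56, 0, 1), (88, 1, 3), (152, 0, 1), (280, 2, 3), (536, 0, 1), 
   (104, 1, 2), (168, 0, 1), (296, 0, 1), (552, 2, 3), (200, 0, 2), (328, 0, 3), (584, 0, 2), 
   (392, 1, 2), (648, 1, 3), (776, 0, 1), (112, 0, 1), (304, 0, 1), (560, 0, 1), (208, 0, 1), 
   (592, 0, 1), (400, 0, 1), (656, 0, 2), (784, 0, 2), (224, 0, 1), (352, 0, 1), (416, 0, 2), 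
   (672, 0, 1), (800, 0, 3), (448, 0, 2), (704, 0, 3), (832, 0, 1)]

/-- the table of the codes of the graphs with at most two components -/
def table : ℕ :=
  179769313486231590772930519078902473361269403363094992027077741372816159198980563288580055091344426332604977474759407049726637131844415860523942374534224636731167823182456866831170431076061175673957859474024003107932017370632796113299897999881349659988005255852582831474287904755440234622326482703472778078336

/-- `v = w`, or `v` and `w` are joined in the graph with the code `f` -/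
def adj5 (f : ℕ) (v w : Fin 5) : Bool := v == w || f.testBit (idx v w)

lemma forests_good : ∀ q ∈ forests, ∀ v : Fin 5, ∃ w : Fin 5,
    adj5 q.1 v w = true ∧ (adj5 q.1 w q.2.1 = true ∨ adj5 q.1 w q.2.2 = true) := by
  decide +kernel

lemma table_good : ∀ x < 1024, table.testBit x = true →
    ∃ q ∈ forests, Nat.land x q.1 = q.1 := by
  decide +kernel

lemma pairs_good : ∀ s ∈ L5, ∀ t ∈ L5, table.testBit (Nat.land s t) = true := by
  decide +kernel

lemma lt_good : ∀ s ∈ L5, s < 1024 := by
  decide +kernel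

lemma nodup_L5 : L5.Nodup := by
  decide +kernel

lemma gr5_inj {s t : ℕ} (hs : s < 1024) (ht : t < 1024) (h : gr5 s = gr5 t) : s = t := by
  apply Nat.eq_of_testBit_eq
  intro k
  by_cases hk : k < 10
  · have key : ∀ k : Fin 10, ∃ i j : Fin 5, i ≠ j ∧ idx i j = k.1 := by decide
    obtain ⟨i, j, hij, hk2⟩ := key ⟨k, hk⟩
    simp only at hk2
    have h1 : (gr5 s).Adj i j ↔ (gr5 t).Adj i j := by rw [h]
    change (i ≠ j ∧ s.testBit (idx i j) = true) ↔ (i ≠ j ∧ t.testBit (idx i j) = true) at h1
    rw [hk2] at h1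
    simp only [hij, ne_eq, not_false_eq_true, true_and] at h1
    exact Bool.eq_iff_iff.2 h1
  · have h2 : (1024 : ℕ) ≤ 2 ^ k := by
      calc (1024 : ℕ) = 2 ^ 10 := by norm_num
        _ ≤ 2 ^ k := Nat.pow_le_pow_right (by norm_num) (by omega)
    rw [Nat.testBit_lt_two_pow (hs.trans_le h2), Nat.testBit_lt_two_pow (ht.trans_le h2)]

lemma two_comp5 (s t : ℕ) (hs : s ∈ L5) (ht : t ∈ L5) :
    Nat.card (gr5 s ⊓ gr5 t).ConnectedComponent ≤ 2 := by
  have hx : Nat.land s t < 1024 := lt_of_le_of_lt Nat.and_le_left (lt_good s hs)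
  obtain ⟨q, hq, hqx⟩ := table_good _ hx (pairs_good s hs t ht)
  have hgood := forests_good q hq
  obtain ⟨f, x0, x1⟩ := q
  simp only at hqx hgood
  have step : ∀ v w : Fin 5, adj5 f v w = true → (gr5 s ⊓ gr5 t).Reachable v w := by
    intro v w h
    simp only [adj5, Bool.or_eq_true, beq_iff_eq] at h
    by_cases hvw : v = w
    · subst hvw; exact SimpleGraph.Reachable.refl _
    · have hf : f.testBit (idx v w) = true := by
        rcases h with h | h
        · exact absurd h hvw
        · exact h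
      rw [← hqx] at hf
      have h3 : (Nat.land (Nat.land s t) f).testBit (idx v w) =
          ((s.testBit (idx v w) && t.testBit (idx v w)) && f.testBit (idx v w)) := by
        have h4 := Nat.testBit_and (s &&& t) f (idx v w)
        have h5 := Nat.testBit_and s t (idx v w)
        exact h4.trans (congrArg (fun b => b && f.testBit (idx v w)) h5)
      rw [h3] at hf
      simp only [Bool.and_eq_true] at hf
      exact SimpleGraph.Adj.reachable ⟨⟨hvw, hf.1.1⟩, ⟨hvw, hf.1.2⟩⟩
  have hsurj : Function.Surjective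
      (fun b : Bool => (gr5 s ⊓ gr5 t).connectedComponentMk (if b then x0 else x1)) := by
    intro c
    induction c using SimpleGraph.ConnectedComponent.ind with
    | h v =>
      obtain ⟨w, h1, h2⟩ := hgood v
      rcases h2 with h2 | h2
      · exact ⟨true, (SimpleGraph.ConnectedComponent.eq.2
          ((step _ _ h1).trans (step _ _ h2))).symm⟩
      · exact ⟨false, (SimpleGraph.ConnectedComponent.eq.2
          ((step _ _ h1).trans (step _ _ h2))).symm⟩
  have := Nat.card_le_card_of_surjective _ hsurj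
  simpa using this

/-- **Theorem.** The bound of Q1 fails for `n = 4` and for `n = 5`: there is a family of graphs on
`[n]` whose pairwise intersections have at most two connected components, with more than
`((n + 1) / 2 ^ n) * 2 ^ (n choose 2)` members (`22 > 20` and `196 > 192`). -/
theorem result :
    (∃ F : Set (SimpleGraph (Fin 4)), AtMostTwo F ∧
      ((4 : ℚ) + 1) / 2 ^ 4 * 2 ^ (Nat.choose 4 2) < (F.ncard : ℚ)) ∧
    (∃ F : Set (SimpleGraph (Fin 5)), AtMostTwo F ∧
      ((5 : ℚ) + 1) / 2 ^ 5 * 2 ^ (Nat.choose 5 2) < (F.ncard : ℚ)) := by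
  constructor
  · refine ⟨gr '' (fam : Set (Finset (Fin 6))), ?_, ?_⟩
    · rintro G ⟨S, hS, rfl⟩ G' ⟨T, hT, rfl⟩ _
      simp only [fam, coe_filter, mem_univ, true_and, Set.mem_ofPred_eq] at hS hT
      exact two_comp S T hS hT
    · rw [Set.ncard_image_of_injective _ gr_inj, Set.ncard_coe_finset, card_fam]
      norm_num [Nat.choose]
  · refine ⟨gr5 '' (L5.toFinset : Set ℕ), ?_, ?_⟩
    · rintro G ⟨s, hs, rfl⟩ G' ⟨t, ht, rfl⟩ _
      simp only [List.coe_toFinset, Set.mem_ofPred_eq] at hs ht
      exact two_comp5 s t hs ht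
    · rw [Set.InjOn.ncard_image, Set.ncard_coe_finset, List.toFinset_card_of_nodup nodup_L5]
      · have : L5.length = 196 := by decide +kernel
        rw [this]
        norm_num [Nat.choose]
      · intro s hs t ht h
        simp only [List.coe_toFinset, Set.mem_ofPred_eq] at hs ht
        exact gr5_inj (lt_good s hs) (lt_good t ht) h

end Pool.Agent.Results.MP_5e9fbd_co.Disproof
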